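import Pool.Agent.TH58.SN8

set_option autoImplicit false

namespace Pool.Agent.Results.MP_ac2766_co.LowerBoundOrthogonal

/-- For every k at least 5 there is a constant c > 0 such that for every n at least 1 there are n
unit vectors in R^n, any k of which contain two orthogonal ones, whose sum has norm at least
c * n ^ (3/4 - 1/(4(k-1))). -/
theorem result (k : ℕ) (hk : 5 ≤ k) :
    ∃ c : ℝ, 0 < c ∧ ∀ n : ℕ, 1 ≤ n →
      ∃ v : Fin n → EuclideanSpace ℝ (Fin n),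
        (∀ i, ‖v i‖ = 1) ∧
        (∀ s : Finset (Fin n), s.card = k →
          ∃ a ∈ s, ∃ b ∈ s, a ≠ b ∧ inner ℝ (v a) (v b) = 0) ∧
        c * (n : ℝ) ^ ((3 : ℝ) / 4 - 1 / (4 * ((k : ℝ) - 1))) ≤ ‖∑ i, v i‖ := by
  obtain ⟨j, rfl⟩ : ∃ j, k = j + 3 := ⟨k - 3, by omega⟩
  have h := Pool.Agent.TH58.SN.main_j j
  have e : (((j + 3 : ℕ) : ℝ) - 1) = (j : ℝ) + 2 := by
    push_cast
    ring
  rw [e]
  exact h

end Pool.Agent.Results.MP_ac2766_co.LowerBoundOrthogonal
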